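import Pool.Agent.W586.SK.Stm

/-! Project SK, part UP: upper bound of a 1-symmetric log-concave density. -/

set_option autoImplicit false

namespace Pool.Agent.W712.SK

open MeasureTheory Set
open scoped ENNReal
open Pool.Agent.H212R2.KLS (mu)
open Pool.Agent.W586.SK

theorem cvx {n : ℕ} {ρ : E n → ℝ} (h : Sy ρ) (x : E n) : Convex ℝ {y | ρ x ≤ ρ y} := by
  intro y hy z hz a b ha hb hab
  simp only [mem_ofPred_eq] at hy hz ⊢
  rcases eq_or_lt_of_le ha with ha0 | ha0
  · have : b = 1 := by linarith
    subst this; rw [← ha0]; simpa using hz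
  rcases eq_or_lt_of_le hb with hb0 | hb0
  · have : a = 1 := by linarith
    subst this; rw [← hb0]; simpa using hy
  have h1 := h.logc y z b hb0 (by linarith)
  have ea : 1 - b = a := by linarith
  rw [ea] at h1
  refine le_trans ?_ h1
  rcases eq_or_lt_of_le (h.nonneg x) with h0 | h0
  · rw [← h0]
    exact mul_nonneg (Real.rpow_nonneg (h.nonneg y) _) (Real.rpow_nonneg (h.nonneg z) _)
  · calc ρ x = ρ x ^ a * ρ x ^ b := by rw [← Real.rpow_add h0, hab, Real.rpow_one]
      _ ≤ ρ y ^ a * ρ z ^ b := by
        apply mul_le_mul (Real.rpow_le_rpow h0.le hy ha) (Real.rpow_le_rpow h0.le hz hb)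
          (Real.rpow_nonneg h0.le _) (Real.rpow_nonneg (h.nonneg y) _)

theorem avg {n : ℕ} (hn : 1 ≤ n) {ρ : E n → ℝ} (h : Sy ρ) (x : E n) :
    ρ x ≤ ρ (WithLp.toLp 2 fun _ => nm x / n) := by
  have : NeZero n := ⟨by omega⟩
  have hc := cvx h x
  have hn0 : (n : ℝ) ≠ 0 := by exact_mod_cast (show n ≠ 0 by omega)
  have h1 := hc.sum_mem (t := Finset.univ) (w := fun _ : Fin n => (1 : ℝ) / n)
    (z := fun k : Fin n => (WithLp.toLp 2 fun i => |x (i + k)| : E n))
    (fun i _ => by positivity)
    (by simp [hn0])
    (fun k _ => by
      simp only [mem_ofPred_eq]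
      apply le_of_eq
      symm
      apply h.inv (Equiv.addRight k)
      intro i
      simp)
  simp only [mem_ofPred_eq] at h1
  refine le_trans h1 (le_of_eq ?_)
  congr 1
  ext i
  simp only [WithLp.ofLp_sum, WithLp.ofLp_smul, Finset.sum_apply, Pi.smul_apply, smul_eq_mul]
  rw [← Finset.mul_sum]
  have : ∑ k : Fin n, |x (i + k)| = nm x := by
    unfold nm
    exact Equiv.sum_comp (Equiv.addLeft i) (fun j => |x j|)
  rw [this]
  ring

theorem cube {n : ℕ} (hn : 1 ≤ n) {ρ : E n → ℝ} (h : Sy ρ) (x : E n) (y : E n)
    (hy : ∀ j, |y j| ≤ nm x / n) : ρ x ≤ ρ y := by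
  classical
  set M := nm x / n with hM
  have hM0 : 0 ≤ M := by
    rw [hM]; unfold nm; positivity
  have key : ∀ S : Finset (Fin n), ∀ z : E n, (∀ j, |z j| ≤ M) → (∀ j, j ∉ S → |z j| = M) →
      ρ x ≤ ρ z := by
    intro S
    induction S using Finset.induction_on with
    | empty =>
      intro z _ hz
      have h1 : ρ x ≤ ρ (WithLp.toLp 2 fun _ => M) := avg hn h x
      refine le_trans h1 (le_of_eq ?_)
      symm
      apply h.inv (Equiv.refl _)
      intro i
      rw [hz i (by simp)]
      simp [abs_of_nonneg hM0]
    | insert i S hi ih =>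
      intro z hz hzS
      rcases eq_or_lt_of_le hM0 with h0 | h0
      · apply ih z hz
        intro j _
        have := hz j
        rw [← h0] at this ⊢
        exact le_antisymm this (abs_nonneg _)
      · set z1 : E n := WithLp.toLp 2 (Function.update z.ofLp i M) with hz1
        set z2 : E n := WithLp.toLp 2 (Function.update z.ofLp i (-M)) with hz2
        have hzi := abs_le.mp (hz i)
        have e1 : ρ x ≤ ρ z1 := by
          apply ih
          · intro j
            by_cases hj : j = i
            · subst hj; simp [hz1, abs_of_nonneg hM0]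
            · simp only [hz1, Function.update_of_ne hj]; exact hz j
          · intro j hj
            by_cases hj' : j = i
            · subst hj'; simp [hz1, abs_of_nonneg hM0]
            · simp only [hz1, Function.update_of_ne hj']
              exact hzS j (by simp [hj', hj])
        have e2 : ρ x ≤ ρ z2 := by
          apply ih
          · intro j
            by_cases hj : j = i
            · subst hj; simp [hz2, abs_of_nonneg hM0]
            · simp only [hz2, Function.update_of_ne hj]; exact hz j
          · intro j hj
            by_cases hj' : j = i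
            · subst hj'; simp [hz2, abs_of_nonneg hM0]
            · simp only [hz2, Function.update_of_ne hj']
              exact hzS j (by simp [hj', hj])
        have hc := cvx h x
        have h2 := hc (show z1 ∈ {y | ρ x ≤ ρ y} from e1) (show z2 ∈ {y | ρ x ≤ ρ y} from e2)
          (show (0 : ℝ) ≤ (M + z i) / (2 * M) from div_nonneg (by linarith) (by linarith))
          (show (0 : ℝ) ≤ (M - z i) / (2 * M) from div_nonneg (by linarith) (by linarith))
          (by field_simp; ring)
        simp only [mem_ofPred_eq] at h2
        refine le_trans h2 (le_of_eq ?_)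
        congr 1
        ext j
        simp only [WithLp.ofLp_add, WithLp.ofLp_smul, Pi.add_apply, Pi.smul_apply, smul_eq_mul,
          hz1, hz2]
        by_cases hj : j = i
        · subst hj
          simp only [Function.update_self]
          field_simp
          ring
        · simp only [Function.update_of_ne hj]
          field_simp
          ring
  exact key Finset.univ y hy (by simp)

theorem up : S_UP := by
  intro n ρ hn h hμ x
  set M := nm x / n with hM
  have hM0 : 0 ≤ M := by
    rw [hM]; unfold nm; positivity
  set C : Set (E n) := (WithLp.ofLp) ⁻¹' (Set.pi univ fun _ : Fin n => Icc (-M) M) with hC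
  have hCm : MeasurableSet C :=
    (PiLp.volume_preserving_ofLp (Fin n)).measurable
      (MeasurableSet.univ_pi fun _ => measurableSet_Icc)
  have hvol : volume C = ENNReal.ofReal ((2 * M) ^ n) := by
    rw [hC, (PiLp.volume_preserving_ofLp (Fin n)).measure_preimage
      (MeasurableSet.univ_pi fun _ => measurableSet_Icc).nullMeasurableSet, volume_pi_pi]
    simp only [Real.volume_Icc, Finset.prod_const, Finset.card_univ, Fintype.card_fin]
    rw [ENNReal.ofReal_pow (by linarith)]
    congr 2
    ring
  have h1 : ENNReal.ofReal (ρ x) * volume C ≤ 1 := by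
    rw [← hμ]
    unfold mu
    rw [withDensity_apply _ MeasurableSet.univ, Measure.restrict_univ]
    calc ENNReal.ofReal (ρ x) * volume C = ∫⁻ _ in C, ENNReal.ofReal (ρ x) := by
          rw [setLIntegral_const]
      _ ≤ ∫⁻ y in C, ENNReal.ofReal (ρ y) := by
          apply setLIntegral_mono' hCm
          intro y hy
          apply ENNReal.ofReal_le_ofReal
          apply cube hn h x y
          intro j
          rw [hC] at hy
          have := hy j (mem_univ j)
          exact abs_le.mpr this
      _ ≤ ∫⁻ y, ENNReal.ofReal (ρ y) := setLIntegral_le_lintegral _ _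
  rw [hvol, ← ENNReal.ofReal_mul (h.nonneg x), ENNReal.ofReal_le_one] at h1
  exact h1

end Pool.Agent.W712.SK
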